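import Pool.Agent.SYS.IN.Cyc

/-!
# SYS-IN-Bij: the maps with a marked digon are the insertions

The insertion preserves and reflects connectedness, every map with a marked digon is an insertion
in exactly one way, and so a sum over these maps is a sum over the pairs (map, side).
-/

namespace SYS.Num.Ins

open SYS.A

private theorem bi_e0 {D : Type} (f : Equiv.Perm D) (j : Fin 6) :
    ext f (Sum.inr j) = Sum.inr (s6 j) := rfl

private theorem bi_el {D : Type} (f : Equiv.Perm D) (e : D) :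
    ext f (Sum.inl e) = Sum.inl (f e) := rfl

private theorem bi_s (j : Fin 6) : s6 j = ![1, 2, 0, 4, 5, 3] j := rfl

private theorem bi_l1 {D : Type} (α : Glu D) (d : D) : (ins α d).1 (Sum.inl d) = Sum.inr 0 := by
  rw [ins_apply]
  simp [insF]

private theorem bi_l2 {D : Type} (α : Glu D) (d : D) :
    (ins α d).1 (Sum.inl (α.1 d)) = Sum.inr 3 := by
  rw [ins_apply]
  have h3 : α.1 d ≠ d := α.2.2 d
  simp [insF, h3]

private theorem bi_l3 {D : Type} (α : Glu D) (d e : D) (h1 : e ≠ d) (h2 : e ≠ α.1 d) :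
    (ins α d).1 (Sum.inl e) = Sum.inl (α.1 e) := by
  rw [ins_apply]
  simp [insF, h1, h2]

private theorem bi_r0 {D : Type} (α : Glu D) (d : D) : (ins α d).1 (Sum.inr 0) = Sum.inl d := rfl
private theorem bi_r1 {D : Type} (α : Glu D) (d : D) : (ins α d).1 (Sum.inr 1) = Sum.inr 5 := rfl
private theorem bi_r2 {D : Type} (α : Glu D) (d : D) : (ins α d).1 (Sum.inr 2) = Sum.inr 4 := rfl
private theorem bi_r3 {D : Type} (α : Glu D) (d : D) :
    (ins α d).1 (Sum.inr 3) = Sum.inl (α.1 d) := rfl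
private theorem bi_r4 {D : Type} (α : Glu D) (d : D) : (ins α d).1 (Sum.inr 4) = Sum.inr 2 := rfl
private theorem bi_r5 {D : Type} (α : Glu D) (d : D) : (ins α d).1 (Sum.inr 5) = Sum.inr 1 := rfl

private theorem bi_inr {D : Type} (f : Equiv.Perm D) (S : Set (D ⊕ Fin 6))
    (hf : ∀ z ∈ S, ext f z ∈ S) :
    (∀ j k : Fin 6, (j.1 < 3 ↔ k.1 < 3) → Sum.inr j ∈ S → Sum.inr k ∈ S) := by
  have h1 : ∀ j : Fin 6, (Sum.inr j : D ⊕ Fin 6) ∈ S → (Sum.inr (s6 j) : D ⊕ Fin 6) ∈ S := by
    intro j hj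
    exact hf _ hj
  have h2 : ∀ j k : Fin 6, (j.1 < 3 ↔ k.1 < 3) → k = j ∨ k = s6 j ∨ k = s6 (s6 j) := by decide
  intro j k hjk hj
  rcases h2 j k hjk with h | h | h
  · rw [h]; exact hj
  · rw [h]; exact h1 _ hj
  · rw [h]; exact h1 _ (h1 _ hj)

private theorem bi_pat {D : Type} {f : Equiv.Perm D} {β : Glu (D ⊕ Fin 6)}
    (hp : Pat (ext f) β (Sum.inr 0) (Sum.inr 3)) :
    β.1 (Sum.inr 1) = Sum.inr 5 ∧ β.1 (Sum.inr 2) = Sum.inr 4 ∧ β.1 (Sum.inr 5) = Sum.inr 1 ∧
      β.1 (Sum.inr 4) = Sum.inr 2 := by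
  have h1 : β.1 (Sum.inr 1) = Sum.inr 5 := hp.1
  have h2 : β.1 (Sum.inr 2) = Sum.inr 4 := hp.2
  refine ⟨h1, h2, ?_, ?_⟩
  · rw [← h1, β.2.1]
  · rw [← h2, β.2.1]

theorem pat_ins {D : Type} (f : Equiv.Perm D) (α : Glu D) (d : D) :
    Pat (ext f) (ins α d) (Sum.inr 0) (Sum.inr 3) := by
  exact ⟨rfl, rfl⟩

theorem tra_ins {D : Type} (f : Equiv.Perm D) (α : Glu D) (d : D) :
    Tra (ext f) (ins α d) ↔ Tra f α := by
  constructor
  · intro h S₀ hne hf hα
    have hS : {z : D ⊕ Fin 6 | ∀ e, (z = Sum.inl e ∨ (e = d ∧ ∃ j, z = Sum.inr j)) → e ∈ S₀} =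
        Set.univ := by
      apply h
      · obtain ⟨e, he⟩ := hne
        refine ⟨Sum.inl e, ?_⟩
        rintro e' (h1 | ⟨_, j, h1⟩)
        · rw [← Sum.inl.inj h1]
          exact he
        · exact absurd h1 (by simp)
      · rintro (e | j) hz
        · rw [bi_el]
          rintro e' (h1 | ⟨_, j, h1⟩)
          · rw [← Sum.inl.inj h1]
            exact hf _ (hz e (Or.inl rfl))
          · exact absurd h1 (by simp)
        · rw [bi_e0]
          rintro e' (h1 | ⟨h2, k, h1⟩)
          · exact absurd h1 (by simp)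
          · exact hz e' (Or.inr ⟨h2, j, rfl⟩)
      · rintro (e | j) hz
        · have he : e ∈ S₀ := hz e (Or.inl rfl)
          by_cases h1 : e = d
          · subst h1
            rw [bi_l1]
            rintro e' (h1 | ⟨h2, k, h1⟩)
            · exact absurd h1 (by simp)
            · rw [h2]
              exact he
          · by_cases h2 : e = α.1 d
            · rw [h2, bi_l2]
              rintro e' (h1 | ⟨h3, k, h1⟩)
              · exact absurd h1 (by simp)
              · rw [h3]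
                have h4 := hα _ he
                rw [h2, α.2.1] at h4
                exact h4
            · rw [bi_l3 α d e h1 h2]
              rintro e' (h3 | ⟨_, k, h3⟩)
              · rw [← Sum.inl.inj h3]
                exact hα _ he
              · exact absurd h3 (by simp)
        · have hd : d ∈ S₀ := hz d (Or.inr ⟨rfl, j, rfl⟩)
          have hdα : α.1 d ∈ S₀ := hα _ hd
          have hr : ∀ k : Fin 6, (Sum.inr k : D ⊕ Fin 6) ∈
              {z : D ⊕ Fin 6 | ∀ e, (z = Sum.inl e ∨ (e = d ∧ ∃ j, z = Sum.inr j)) → e ∈ S₀} := by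
            rintro k e' (h1 | ⟨h2, _, _⟩)
            · exact absurd h1 (by simp)
            · rw [h2]
              exact hd
          have hl : ∀ e : D, e ∈ S₀ → (Sum.inl e : D ⊕ Fin 6) ∈
              {z : D ⊕ Fin 6 | ∀ e, (z = Sum.inl e ∨ (e = d ∧ ∃ j, z = Sum.inr j)) → e ∈ S₀} := by
            rintro e he e' (h1 | ⟨_, k, h1⟩)
            · rw [← Sum.inl.inj h1]
              exact he
            · exact absurd h1 (by simp)
          fin_cases j
          · exact hl d hd
          · exact hr 5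
          · exact hr 4
          · exact hl _ hdα
          · exact hr 2
          · exact hr 1
    rw [Set.eq_univ_iff_forall] at hS ⊢
    intro e
    exact hS (Sum.inl e) e (Or.inl rfl)
  · intro h S hne hf hα
    have hr := bi_inr f S hf
    have k0 : Sum.inl d ∈ S → Sum.inr 0 ∈ S := fun h1 => by
      have h2 := hα _ h1
      rwa [bi_l1] at h2
    have k3 : Sum.inl (α.1 d) ∈ S → Sum.inr 3 ∈ S := fun h1 => by
      have h2 := hα _ h1
      rwa [bi_l2] at h2
    have k0' : Sum.inr 0 ∈ S → Sum.inl d ∈ S := fun h1 => hα _ h1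
    have k3' : Sum.inr 3 ∈ S → Sum.inl (α.1 d) ∈ S := fun h1 => hα _ h1
    have k1 : (Sum.inr 0 : D ⊕ Fin 6) ∈ S → (Sum.inr 3 : D ⊕ Fin 6) ∈ S := fun h1 =>
      hr 5 3 (by decide) (hα _ (hr 0 1 (by decide) h1))
    have k2 : (Sum.inr 3 : D ⊕ Fin 6) ∈ S → (Sum.inr 0 : D ⊕ Fin 6) ∈ S := fun h1 =>
      hr 1 0 (by decide) (hα _ (hr 3 5 (by decide) h1))
    have hS : {e : D | Sum.inl e ∈ S} = Set.univ := by
      apply h
      · obtain ⟨z, hz⟩ := hne
        rcases z with e | j
        · exact ⟨e, hz⟩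
        · by_cases hj : j.1 < 3
          · exact ⟨d, k0' (hr j 0 (by simp [hj]) hz)⟩
          · exact ⟨α.1 d, k3' (hr j 3 (by simp [hj]) hz)⟩
      · intro e he
        exact hf _ he
      · intro e he
        have he' : Sum.inl e ∈ S := he
        show Sum.inl (α.1 e) ∈ S
        by_cases h1 : e = d
        · rw [h1] at he' ⊢
          exact k3' (k1 (k0 he'))
        · by_cases h2 : e = α.1 d
          · rw [h2] at he' ⊢
            rw [α.2.1]
            exact k0' (k2 (k3 he'))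
          · have h3 := hα _ he'
            rwa [bi_l3 α d e h1 h2] at h3
    rw [Set.eq_univ_iff_forall] at hS ⊢
    have m0 : (Sum.inr 0 : D ⊕ Fin 6) ∈ S := k0 (hS d)
    rintro (e | j)
    · exact hS e
    · by_cases hj : j.1 < 3
      · exact hr 0 j (by simp [hj]) m0
      · exact hr 3 j (by simp [hj]) (k1 m0)

theorem exists_ins {D : Type} [Nonempty D] (f : Equiv.Perm D) (β : Glu (D ⊕ Fin 6))
    (h : Tra (ext f) β) (hp : Pat (ext f) β (Sum.inr 0) (Sum.inr 3)) :
    ∃ (α : Glu D) (d : D), β = ins α d := by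
  classical
  obtain ⟨b1, b2, b5, b4⟩ := bi_pat hp
  have inv : ∀ x y, β.1 x = y → β.1 y = x := by
    intro x y hxy
    rw [← hxy, β.2.1]
  have hn : ∀ k : Fin 6, k = 0 ∨ k = 3 → ∀ j : Fin 6, β.1 (Sum.inr k) = Sum.inr j → j = 0 ∨ j = 3 := by
    intro k hk j hj
    have h1 := inv _ _ hj
    fin_cases j
    · exact Or.inl rfl
    · exfalso
      have h2 : (Sum.inr k : D ⊕ Fin 6) = Sum.inr 5 := h1.symm.trans b1
      have h3 := Sum.inr.inj h2
      rcases hk with hk | hk <;> rw [hk] at h3 <;> exact absurd h3 (by decide)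
    · exfalso
      have h2 : (Sum.inr k : D ⊕ Fin 6) = Sum.inr 4 := h1.symm.trans b2
      have h3 := Sum.inr.inj h2
      rcases hk with hk | hk <;> rw [hk] at h3 <;> exact absurd h3 (by decide)
    · exact Or.inr rfl
    · exfalso
      have h2 : (Sum.inr k : D ⊕ Fin 6) = Sum.inr 2 := h1.symm.trans b4
      have h3 := Sum.inr.inj h2
      rcases hk with hk | hk <;> rw [hk] at h3 <;> exact absurd h3 (by decide)
    · exfalso
      have h2 : (Sum.inr k : D ⊕ Fin 6) = Sum.inr 1 := h1.symm.trans b5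
      have h3 := Sum.inr.inj h2
      rcases hk with hk | hk <;> rw [hk] at h3 <;> exact absurd h3 (by decide)
  have h03 : β.1 (Sum.inr 0) ≠ Sum.inr 3 := by
    intro h0
    have h3 := inv _ _ h0
    have hS : Set.range (Sum.inr : Fin 6 → D ⊕ Fin 6) = Set.univ := by
      apply h
      · exact ⟨_, 0, rfl⟩
      · rintro _ ⟨j, rfl⟩
        exact ⟨s6 j, rfl⟩
      · rintro _ ⟨j, rfl⟩
        fin_cases j
        · exact ⟨3, h0.symm⟩
        · exact ⟨5, b1.symm⟩
        · exact ⟨4, b2.symm⟩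
        · exact ⟨0, h3.symm⟩
        · exact ⟨2, b4.symm⟩
        · exact ⟨1, b5.symm⟩
    have he : (Sum.inl (Classical.arbitrary D) : D ⊕ Fin 6) ∈
        Set.range (Sum.inr : Fin 6 → D ⊕ Fin 6) := by
      rw [hS]
      exact Set.mem_univ _
    obtain ⟨j, hj⟩ := he
    exact absurd hj (by simp)
  obtain ⟨d, hd⟩ : ∃ d, β.1 (Sum.inr 0) = Sum.inl d := by
    rcases hz : β.1 (Sum.inr 0) with d | j
    · exact ⟨d, rfl⟩
    · exfalso
      rcases hn 0 (Or.inl rfl) j hz with hj | hj
      · rw [hj] at hz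
        exact β.2.2 _ hz
      · rw [hj] at hz
        exact h03 hz
  obtain ⟨d', hd'⟩ : ∃ d', β.1 (Sum.inr 3) = Sum.inl d' := by
    rcases hz : β.1 (Sum.inr 3) with d | j
    · exact ⟨d, rfl⟩
    · exfalso
      rcases hn 3 (Or.inr rfl) j hz with hj | hj
      · rw [hj] at hz
        exact h03 (inv _ _ hz)
      · rw [hj] at hz
        exact β.2.2 _ hz
  have hdi := inv _ _ hd
  have hdi' := inv _ _ hd'
  have hdd : d' ≠ d := by
    intro h1
    rw [h1, hdi] at hdi'
    exact absurd (Sum.inr.inj hdi') (by decide)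
  have hex : ∀ e : D, ∃ e' : D, (e = d → e' = d') ∧ (e = d' → e' = d) ∧
      (e ≠ d → e ≠ d' → β.1 (Sum.inl e) = Sum.inl e') := by
    intro e
    by_cases h1 : e = d
    · exact ⟨d', fun _ => rfl, fun h2 => absurd (h2.symm.trans h1) hdd, fun h2 => absurd h1 h2⟩
    · by_cases h2 : e = d'
      · exact ⟨d, fun h3 => absurd h3 h1, fun _ => rfl, fun _ h3 => absurd h2 h3⟩
      · rcases hz : β.1 (Sum.inl e) with e' | j
        · exact ⟨e', fun h3 => absurd h3 h1, fun h3 => absurd h3 h2, fun _ _ => rfl⟩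
        · exfalso
          have h3 := inv _ _ hz
          fin_cases j
          · have h4 : (Sum.inl e : D ⊕ Fin 6) = Sum.inl d := h3.symm.trans hd
            exact h1 (Sum.inl.inj h4)
          · have h4 : (Sum.inl e : D ⊕ Fin 6) = Sum.inr 5 := h3.symm.trans b1
            exact absurd h4 (by simp)
          · have h4 : (Sum.inl e : D ⊕ Fin 6) = Sum.inr 4 := h3.symm.trans b2
            exact absurd h4 (by simp)
          · have h4 : (Sum.inl e : D ⊕ Fin 6) = Sum.inl d' := h3.symm.trans hd'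
            exact h2 (Sum.inl.inj h4)
          · have h4 : (Sum.inl e : D ⊕ Fin 6) = Sum.inr 2 := h3.symm.trans b4
            exact absurd h4 (by simp)
          · have h4 : (Sum.inl e : D ⊕ Fin 6) = Sum.inr 1 := h3.symm.trans b5
            exact absurd h4 (by simp)
  choose g g1 g2 g3 using hex
  have gd : g d = d' := g1 d rfl
  have gd' : g d' = d := g2 d' rfl
  have gne : ∀ e, e ≠ d → e ≠ d' → g e ≠ d ∧ g e ≠ d' := by
    intro e h1 h2
    have h3 := inv _ _ (g3 e h1 h2)
    constructor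
    · intro h4
      rw [h4, hdi] at h3
      exact absurd h3 (by simp)
    · intro h4
      rw [h4, hdi'] at h3
      exact absurd h3 (by simp)
  have ginv : Function.Involutive g := by
    intro e
    by_cases h1 : e = d
    · rw [h1, gd, gd']
    · by_cases h2 : e = d'
      · rw [h2, gd', gd]
      · have h3 := gne e h1 h2
        have h4 := g3 (g e) h3.1 h3.2
        have h5 := inv _ _ (g3 e h1 h2)
        exact (Sum.inl.inj (h5.symm.trans h4)).symm
  have gfix : ∀ e, g e ≠ e := by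
    intro e
    by_cases h1 : e = d
    · rw [h1, gd]
      exact hdd
    · by_cases h2 : e = d'
      · rw [h2, gd']
        exact hdd.symm
      · intro h3
        have h4 := g3 e h1 h2
        rw [h3] at h4
        exact β.2.2 _ h4
  refine ⟨⟨ginv.toPerm, ginv, gfix⟩, d, ?_⟩
  apply Subtype.ext
  apply Equiv.ext
  rintro (e | j)
  · by_cases h1 : e = d
    · rw [h1, bi_l1]
      exact hdi
    · by_cases h2 : e = d'
      · have h3 := bi_l2 (⟨ginv.toPerm, ginv, gfix⟩ : Glu D) d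
        have h4 : (⟨ginv.toPerm, ginv, gfix⟩ : Glu D).1 d = d' := gd
        rw [h4] at h3
        rw [h2, h3]
        exact hdi'
      · have h4 : (⟨ginv.toPerm, ginv, gfix⟩ : Glu D).1 d = d' := gd
        rw [bi_l3 (⟨ginv.toPerm, ginv, gfix⟩ : Glu D) d e h1 (by rw [h4]; exact h2)]
        exact g3 e h1 h2
  · fin_cases j
    · exact hd
    · exact b1
    · exact b2
    · refine hd'.trans ?_
      show Sum.inl d' = Sum.inl (g d)
      rw [gd]
    · exact b4
    · exact b5

theorem ins_inj {D : Type} {α α' : Glu D} {d d' : D} (h : ins α d = ins α' d') : α = α' ∧ d = d' := by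
  have h0 : (ins α d).1 (Sum.inr 0) = (ins α' d').1 (Sum.inr 0) := by rw [h]
  have hd : d = d' := Sum.inl.inj h0
  subst hd
  have h3 : (ins α d).1 (Sum.inr 3) = (ins α' d).1 (Sum.inr 3) := by rw [h]
  have h4 : α.1 d = α'.1 d := Sum.inl.inj h3
  refine ⟨?_, rfl⟩
  apply Subtype.ext
  apply Equiv.ext
  intro e
  by_cases h1 : e = d
  · rw [h1, h4]
  · by_cases h2 : e = α.1 d
    · rw [h2, α.2.1, h4, α'.2.1]
    · have h5 : (ins α d).1 (Sum.inl e) = (ins α' d).1 (Sum.inl e) := by rw [h]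
      rw [bi_l3 α d e h1 h2, bi_l3 α' d e h1 (by rw [← h4]; exact h2)] at h5
      exact Sum.inl.inj h5

theorem ins_sum {D : Type} [Finite D] [Nonempty D] (f : Equiv.Perm D) (V : ℕ)
    (w : Glu (D ⊕ Fin 6) → ℝ) :
    ∑ᶠ β : {β : Mp (ext f) (V + 1) // Pat (ext f) β.1 (Sum.inr 0) (Sum.inr 3)}, w β.1.1 =
      ∑ᶠ z : Mp f V × D, w (ins z.1.1 z.2) := by
  symm
  have hq : ∀ z : Mp f V × D, Tra (ext f) (ins z.1.1 z.2) ∧
      SST.T.cyc (ext f * (ins z.1.1 z.2).1) = V + 1 := by
    intro z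
    exact ⟨(tra_ins f z.1.1 z.2).2 z.1.2.1, by rw [cyc_ins, z.1.2.2]⟩
  refine finsum_eq_of_bijective
    (fun z : Mp f V × D => (⟨⟨ins z.1.1 z.2, hq z⟩, pat_ins f z.1.1 z.2⟩ :
      {β : Mp (ext f) (V + 1) // Pat (ext f) β.1 (Sum.inr 0) (Sum.inr 3)})) ⟨?_, ?_⟩ fun z => rfl
  · rintro ⟨⟨α, hα⟩, d⟩ ⟨⟨α', hα'⟩, d'⟩ h
    have h1 : ins α d = ins α' d' := congrArg (fun b => b.1.1) h
    obtain ⟨h2, h3⟩ := ins_inj h1
    subst h2
    subst h3
    rfl
  · rintro ⟨⟨β, hβ⟩, hp⟩
    obtain ⟨α, d, h⟩ := exists_ins f β hβ.1 hp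
    subst h
    have h1 : Tra f α := (tra_ins f α d).1 hβ.1
    have h2 : SST.T.cyc (f * α.1) = V := by
      have h3 := hβ.2
      rw [cyc_ins] at h3
      omega
    exact ⟨(⟨α, h1, h2⟩, d), rfl⟩

end SYS.Num.Ins
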