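import Pool.Agent.SYS.IN.Defs

/-!
# SYS-IN-Brg: `conM` in terms of `Mp`

The sides of the polygons of the family `Sum.elim (fam P) (fun _ => 3)` are identified with `TD (Dt (fam P)) F`; the gluings,
the connectedness and the numbers of cycles correspond.
-/

namespace SYS.Num.Ins

open SYS.A

private theorem cyc_conj {E D : Type} (e : E ≃ D) (σ : Equiv.Perm E) (τ : Equiv.Perm D)
    (h : ∀ z, τ (e z) = e (σ z)) : SST.T.cyc τ = SST.T.cyc σ := by
  have hτ : τ = e.permCongrHom σ := by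
    ext y
    obtain ⟨z, rfl⟩ := e.surjective y
    rw [h z]
    simp [Equiv.permCongrHom]
  have hz : ∀ (k : ℤ) (z : E), (τ ^ k) (e z) = e ((σ ^ k) z) := by
    intro k z
    rw [hτ, ← map_zpow]
    simp [Equiv.permCongrHom]
  unfold SST.T.cyc
  refine (Nat.card_congr (Quotient.congr e ?_)).symm
  intro a b
  constructor
  · rintro ⟨k, hk⟩
    exact ⟨k, by rw [hz, hk]⟩
  · rintro ⟨k, hk⟩
    rw [hz] at hk
    exact ⟨k, e.injective hk⟩

/-- the family of all polygons -/
private abbrev qq {ι : Type} (p : ι → ℕ) (F : ℕ) : ι ⊕ Fin F → ℕ := Sum.elim p fun _ => 3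

/-- the darts -/
private def ee {ι : Type} (p : ι → ℕ) (F : ℕ) : Dt (qq p F) ≃ TD (Dt p) F where
  toFun
    | ⟨Sum.inl i, x⟩ => Sum.inl ⟨i, x⟩
    | ⟨Sum.inr j, x⟩ => Sum.inr (j, x)
  invFun
    | Sum.inl ⟨i, x⟩ => ⟨Sum.inl i, x⟩
    | Sum.inr (j, x) => ⟨Sum.inr j, x⟩
  left_inv := by rintro ⟨i | j, x⟩ <;> rfl
  right_inv := by rintro (⟨i, x⟩ | ⟨j, x⟩) <;> rfl

private theorem ee_rot {ι : Type} (p : ι → ℕ) (F : ℕ) (d : Dt (qq p F)) :
    tf (rot p) F (ee p F d) = ee p F (rot (qq p F) d) := by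
  obtain ⟨i | j, x⟩ := d <;> rfl

private theorem fin_closed {n : ℕ} (Z : Set (Fin n)) (h : ∀ x ∈ Z, finRotate n x ∈ Z) {x : Fin n} (hx : x ∈ Z)
    (y : Fin n) : y ∈ Z := by
  cases n with
  | zero => exact x.elim0
  | succ m =>
    have key : ∀ k : ℕ, (⟨(x.val + k) % (m + 1), Nat.mod_lt _ (Nat.succ_pos m)⟩ : Fin (m + 1)) ∈ Z := by
      intro k
      induction k with
      | zero =>
        have : (⟨(x.val + 0) % (m + 1), Nat.mod_lt _ (Nat.succ_pos m)⟩ : Fin (m + 1)) = x := by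
          apply Fin.ext
          show (x.val + 0) % (m + 1) = x.val
          rw [add_zero, Nat.mod_eq_of_lt x.isLt]
        rw [this]
        exact hx
      | succ k ih =>
        have h1 := h _ ih
        rw [finRotate_apply] at h1
        have : (⟨(x.val + (k + 1)) % (m + 1), Nat.mod_lt _ (Nat.succ_pos m)⟩ : Fin (m + 1)) =
            ⟨(x.val + k) % (m + 1), Nat.mod_lt _ (Nat.succ_pos m)⟩ + 1 := by
          apply Fin.ext
          rw [Fin.val_add, Fin.val_one']
          show (x.val + (k + 1)) % (m + 1) = ((x.val + k) % (m + 1) + 1 % (m + 1)) % (m + 1)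
          rw [← Nat.add_mod, add_assoc]
        rw [this]
        exact h1
    have h1 := key (y.val + (m + 1) - x.val)
    have h2 : (⟨(x.val + (y.val + (m + 1) - x.val)) % (m + 1), Nat.mod_lt _ (Nat.succ_pos m)⟩ : Fin (m + 1)) = y := by
      apply Fin.ext
      show (x.val + (y.val + (m + 1) - x.val)) % (m + 1) = y.val
      have hx' := x.isLt
      have : x.val + (y.val + (m + 1) - x.val) = y.val + (m + 1) := by omega
      rw [this, Nat.add_mod_right, Nat.mod_eq_of_lt y.isLt]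
    rw [h2] at h1
    exact h1

/-- transport of gluings -/
private def gluE {A B : Type} (e : A ≃ B) : Glu A ≃ Glu B where
  toFun β := ⟨e.permCongr β.1, fun d => by simp [Equiv.permCongr_apply, β.2.1], fun d hd => by
    rw [Equiv.permCongr_apply] at hd
    exact β.2.2 (e.symm d) (e.injective (by rw [hd, Equiv.apply_symm_apply]))⟩
  invFun α := ⟨e.symm.permCongr α.1, fun d => by simp [Equiv.permCongr_apply, α.2.1], fun d hd => by
    rw [Equiv.permCongr_apply] at hd
    exact α.2.2 (e.symm.symm d) (e.symm.injective (by rw [hd, Equiv.apply_symm_apply]))⟩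
  left_inv β := by
    apply Subtype.ext
    apply Equiv.ext
    intro d
    simp [Equiv.permCongr_apply]
  right_inv α := by
    apply Subtype.ext
    apply Equiv.ext
    intro d
    simp [Equiv.permCongr_apply]

private theorem gluE_apply {A B : Type} (e : A ≃ B) (β : Glu A) (d : A) :
    (gluE e β).1 (e d) = e (β.1 d) := by
  show e.permCongr β.1 (e d) = e (β.1 d)
  simp [Equiv.permCongr_apply]

private theorem conn_iff {ι : Type} (p : ι → ℕ) (F : ℕ) (hp : ∀ i, p i ≠ 0) (h : Nonempty ι ∨ 0 < F)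
    (α : Glu (TD (Dt p) F)) (β : Glu (Dt (qq p F))) (hαβ : ∀ d, α.1 (ee p F d) = ee p F (β.1 d)) :
    Tra (tf (rot p) F) α ↔ Cn (qq p F) β := by
  have hq : ∀ i, qq p F i ≠ 0 := by
    rintro (i | j)
    · exact hp i
    · exact three_ne_zero
  have hd : ∀ i, ∃ x : Fin (qq p F i), True := fun i => ⟨⟨0, Nat.pos_of_ne_zero (hq i)⟩, trivial⟩
  constructor
  · intro hc
    refine ⟨?_, fun S hS hcl => ?_⟩
    · rcases h with ⟨⟨i⟩⟩ | h
      · exact ⟨Sum.inl i⟩
      · exact ⟨Sum.inr ⟨0, h⟩⟩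
    · have h1 : {d : TD (Dt p) F | ((ee p F).symm d).1 ∈ S} = Set.univ := by
        apply hc
        · obtain ⟨i, hi⟩ := hS
          obtain ⟨x, _⟩ := hd i
          refine ⟨ee p F ⟨i, x⟩, ?_⟩
          show ((ee p F).symm (ee p F ⟨i, x⟩)).1 ∈ S
          rw [Equiv.symm_apply_apply]
          exact hi
        · intro d hdS
          obtain ⟨d, rfl⟩ := (ee p F).surjective d
          change ((ee p F).symm (ee p F d)).1 ∈ S at hdS
          rw [Equiv.symm_apply_apply] at hdS
          show ((ee p F).symm (tf (rot p) F (ee p F d))).1 ∈ S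
          rw [ee_rot, Equiv.symm_apply_apply]
          exact hdS
        · intro d hdS
          obtain ⟨d, rfl⟩ := (ee p F).surjective d
          change ((ee p F).symm (ee p F d)).1 ∈ S at hdS
          rw [Equiv.symm_apply_apply] at hdS
          show ((ee p F).symm (α.1 (ee p F d))).1 ∈ S
          rw [hαβ, Equiv.symm_apply_apply]
          exact hcl d hdS
      apply Set.eq_univ_of_forall
      intro i
      obtain ⟨x, _⟩ := hd i
      have h2 : ee p F ⟨i, x⟩ ∈ {d : TD (Dt p) F | ((ee p F).symm d).1 ∈ S} := by rw [h1]; trivial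
      change ((ee p F).symm (ee p F ⟨i, x⟩)).1 ∈ S at h2
      rw [Equiv.symm_apply_apply] at h2
      exact h2
  · rintro ⟨_, hc⟩ S hS hcl1 hcl2
    have hpoly : ∀ (i : ι ⊕ Fin F) (x y : Fin (qq p F i)), ee p F ⟨i, x⟩ ∈ S → ee p F ⟨i, y⟩ ∈ S := by
      intro i x y hx
      refine fin_closed {z : Fin (qq p F i) | ee p F ⟨i, z⟩ ∈ S} ?_ hx y
      intro z hz
      have := hcl1 _ hz
      rw [ee_rot] at this
      exact this
    have h1 : {i : ι ⊕ Fin F | ∃ x, ee p F ⟨i, x⟩ ∈ S} = Set.univ := by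
      apply hc
      · obtain ⟨d, hd⟩ := hS
        obtain ⟨⟨i, x⟩, rfl⟩ := (ee p F).surjective d
        exact ⟨i, x, hd⟩
      · rintro ⟨i, x⟩ ⟨y, hy⟩
        have h2 := hcl2 _ (hpoly i y x hy)
        rw [hαβ] at h2
        exact ⟨(β.1 ⟨i, x⟩).2, h2⟩
    apply Set.eq_univ_of_forall
    intro d
    obtain ⟨⟨i, x⟩, rfl⟩ := (ee p F).surjective d
    have h2 : i ∈ {i : ι ⊕ Fin F | ∃ x, ee p F ⟨i, x⟩ ∈ S} := by rw [h1]; trivial
    obtain ⟨y, hy⟩ := h2
    exact hpoly i y x hy

private theorem coeff_con {κ : Type} [Finite κ] (q : κ → ℕ) (V : ℕ) :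
    (con q).coeff V = (Nat.card {α : {α : Glu (Dt q) // Cn q α} // vn q α.1 = V} : ℚ) := by
  classical
  have : Fintype {α : Glu (Dt q) // Cn q α} := Fintype.ofFinite _
  rw [con, finsum_eq_sum_of_fintype, Polynomial.finsetSum_coeff]
  simp only [Polynomial.coeff_X_pow]
  rw [Nat.card_eq_fintype_card, Fintype.card_subtype, Finset.card_filter, Nat.cast_sum]
  apply Finset.sum_congr rfl
  intro α _
  by_cases h : vn q α.1 = V
  · rw [if_pos h.symm, if_pos h, Nat.cast_one]
  · rw [if_neg (fun h' => h h'.symm), if_neg h, Nat.cast_zero]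

private theorem vn_eq {ι : Type} (p : ι → ℕ) (F : ℕ) (hp : ∀ i, p i ≠ 0)
    (α : Glu (TD (Dt p) F)) (β : Glu (Dt (qq p F))) (hαβ : ∀ d, α.1 (ee p F d) = ee p F (β.1 d)) :
    vn (qq p F) β = SST.T.cyc (tf (rot p) F * α.1) := by
  have h0 : Nat.card {i // qq p F i = 0} = 0 := by
    have : IsEmpty {i // qq p F i = 0} := by
      constructor
      rintro ⟨i | j, hi⟩
      · exact hp i hi
      · exact three_ne_zero hi
    exact Nat.card_of_isEmpty
  rw [vn, h0, add_zero]
  symm
  apply cyc_conj (ee p F)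
  intro z
  rw [Equiv.Perm.mul_apply, hαβ, ee_rot, Equiv.Perm.mul_apply]

private theorem card_maps {ι : Type} (p : ι → ℕ) (F V : ℕ) (hp : ∀ i, p i ≠ 0)
    (h : Nonempty ι ∨ 0 < F) :
    Nat.card {α : {α : Glu (Dt (qq p F)) // Cn (qq p F) α} // vn (qq p F) α.1 = V} =
      Nat.card (Mp (tf (rot p) F) V) := by
  refine Nat.card_congr ((Equiv.subtypeSubtypeEquivSubtypeInter (fun α : Glu (Dt (qq p F)) => Cn (qq p F) α)
    (fun α => vn (qq p F) α = V)).trans ?_)
  refine Equiv.subtypeEquiv (gluE (ee p F)) fun β => ?_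
  have h1 := gluE_apply (ee p F) β
  rw [conn_iff p F hp h _ β h1, vn_eq p F hp _ β h1]

private theorem map_qq (P : Multiset ℕ) (F : ℕ) :
    Finset.univ.val.map (qq (fam P) F) = P + Multiset.replicate F 3 := by
  rw [← Finset.univ_disjSum_univ]
  show Multiset.map (qq (fam P) F) (Multiset.disjSum _ _) = _
  rw [Multiset.disjSum, Multiset.map_add, Multiset.map_map, Multiset.map_map]
  congr 1
  · exact fam_map P
  · have h2 : (qq (fam P) F) ∘ Sum.inr = fun _ : Fin F => 3 := rfl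
    rw [h2, Multiset.map_const']
    congr 1
    exact Finset.card_fin F

theorem con_mp (P : Multiset ℕ) (F V : ℕ) (h0 : 0 ∉ P) (h : P ≠ 0 ∨ 0 < F) :
    (conM (P + Multiset.replicate F 3)).coeff V = (Nat.card (Mp (tf (rot (fam P)) F) V) : ℚ) := by
  have hp : ∀ i, fam P i ≠ 0 := by
    intro i hi
    apply h0
    rw [← hi]
    exact Multiset.coe_mem
  have h' : Nonempty P.ToType ∨ 0 < F := by
    rcases h with h | h
    · left
      obtain ⟨a, ha⟩ := Multiset.exists_mem_of_ne_zero h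
      exact ⟨⟨a, ⟨0, Multiset.count_pos.2 ha⟩⟩⟩
    · exact Or.inr h
  rw [← map_qq, ← con_eq, coeff_con, card_maps (fam P) F V hp h']

theorem card_TD (P : Multiset ℕ) (F : ℕ) : Nat.card (TD (Dt (fam P)) F) = P.sum + 3 * F := by
  have h1 : Nat.card (Dt (fam P)) = P.sum := by
    rw [Nat.card_sigma]
    simp only [Nat.card_eq_fintype_card, Fintype.card_fin]
    show (Finset.univ.val.map (fam P)).sum = P.sum
    rw [fam_map]
  rw [Nat.card_sum, Nat.card_prod, h1, Nat.card_fin, Nat.card_fin]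
  ring

end SYS.Num.Ins
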