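import Pool.Agent.SYS.IN.Defs

/-!
# SYS-IN-Cnt: the insertion creates at most two patterns
-/

namespace SYS.Num.Ins

open SYS.A

private theorem cnt_ll {D : Type} {α : Glu D} {d e e' : D}
    (h : insF α d (Sum.inl e) = Sum.inl e') : α.1 e = e' := by
  by_cases h1 : e = d
  · simp [insF, h1] at h
  · by_cases h2 : e = α.1 d
    · have h3 : α.1 d ≠ d := α.2.2 d
      simp [insF, h2, h3] at h
    · simpa [insF, h1, h2] using h

private theorem cnt_lr {D : Type} {α : Glu D} {d e : D} {j : Fin 6}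
    (h : insF α d (Sum.inl e) = Sum.inr j) : j = 0 ∨ j = 3 := by
  by_cases h1 : e = d
  · left
    simpa [insF, h1, eq_comm] using h
  · by_cases h2 : e = α.1 d
    · right
      have h3 : α.1 d ≠ d := α.2.2 d
      simpa [insF, h2, h3, eq_comm] using h
    · simp [insF, h1, h2] at h

private theorem cnt_rl {D : Type} {α : Glu D} {d e : D} {j : Fin 6}
    (h : insF α d (Sum.inr j) = Sum.inl e) : j = 0 ∨ j = 3 := by
  fin_cases j <;> simp [insF] at h ⊢

private def cntR (j k : Fin 6) : Prop :=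
  (j = 1 ∧ k = 5) ∨ (j = 2 ∧ k = 4) ∨ (j = 4 ∧ k = 2) ∨ (j = 5 ∧ k = 1)

private instance (j k : Fin 6) : Decidable (cntR j k) := by
  unfold cntR
  infer_instance

private theorem cnt_rr {D : Type} {α : Glu D} {d : D} {j k : Fin 6}
    (h : insF α d (Sum.inr j) = Sum.inr k) : cntR j k := by
  unfold cntR
  fin_cases j <;> simp [insF, eq_comm] at h ⊢ <;> exact h

private theorem cnt_fin1 : ∀ j : Fin 6, (s6 (s6 j) = 0 ∨ s6 (s6 j) = 3) → ¬(s6 j = 0 ∨ s6 j = 3) := by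
  decide

private theorem cnt_fin2 : ∀ j k : Fin 6, cntR (s6 j) (s6 (s6 k)) → cntR (s6 (s6 j)) (s6 k) →
    (j = 0 ∧ k = 3) ∨ (j = 3 ∧ k = 0) := by
  decide

private theorem cnt_sub {D : Type} (f : Equiv.Perm D) (T : Set D) (α : Glu D) (d : D) :
    {z : (D ⊕ Fin 6) × (D ⊕ Fin 6) | Dif (ext f) (extT T) z.1 z.2 ∧ Pat (ext f) (ins α d) z.1 z.2} ⊆
      (fun z : D × D => ((Sum.inl z.1, Sum.inl z.2) : (D ⊕ Fin 6) × (D ⊕ Fin 6))) ''
        {z : D × D | Dif f T z.1 z.2 ∧ Pat f α z.1 z.2} ∪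
      {(Sum.inr 0, Sum.inr 3), (Sum.inr 3, Sum.inr 0)} := by
  rintro ⟨x, y⟩ ⟨⟨hx, hy, n1, n2, n3⟩, p1, p2⟩
  rcases x with e | j <;> rcases y with e' | k
  · left
    refine ⟨(e, e'), ⟨⟨hx e rfl, hy e' rfl, ?_, ?_, ?_⟩, cnt_ll p1, cnt_ll p2⟩, rfl⟩
    · intro h
      exact n1 (congrArg Sum.inl h)
    · intro h
      exact n2 (congrArg Sum.inl h)
    · intro h
      exact n3 (congrArg Sum.inl h)
  · exact absurd (cnt_lr p2) (cnt_fin1 k (cnt_lr p1))
  · exact absurd (cnt_rl p1) (cnt_fin1 j (cnt_rl p2))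
  · right
    rcases cnt_fin2 j k (cnt_rr p1) (cnt_rr p2) with ⟨rfl, rfl⟩ | ⟨rfl, rfl⟩
    · left
      rfl
    · right
      rfl

theorem XX_ins {D : Type} [Finite D] (f : Equiv.Perm D) (T : Set D) (α : Glu D) (d : D) :
    XX (ext f) (extT T) (ins α d) ≤ XX f T α + 2 := by
  have h1 : XX (ext f) (extT T) (ins α d) = Set.ncard {z : (D ⊕ Fin 6) × (D ⊕ Fin 6) |
      Dif (ext f) (extT T) z.1 z.2 ∧ Pat (ext f) (ins α d) z.1 z.2} := rfl
  have h2 : XX f T α = Set.ncard {z : D × D | Dif f T z.1 z.2 ∧ Pat f α z.1 z.2} := rfl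
  rw [h1, h2]
  refine le_trans (Set.ncard_le_ncard (cnt_sub f T α d) (Set.toFinite _)) ?_
  refine le_trans (Set.ncard_union_le _ _) ?_
  refine Nat.add_le_add (Set.ncard_image_le (Set.toFinite _)) ?_
  refine le_trans (Set.ncard_insert_le _ _) ?_
  rw [Set.ncard_singleton]

end SYS.Num.Ins
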