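import Pool.Agent.SYS.IN.Defs

/-!
# SYS-IN-Cyc: the insertion adds one vertex
-/

namespace SYS.Num.Ins

open SYS.A

section

variable {D : Type} (f : Equiv.Perm D) (α : Glu D) (d : D)

private theorem sg (z : D ⊕ Fin 6) : (ext f * (ins α d).1) z = ext f (insF α d z) := rfl

private theorem sg_ne {e : D} (h1 : e ≠ d) (h2 : e ≠ α.1 d) :
    (ext f * (ins α d).1) (Sum.inl e) = Sum.inl ((f * α.1) e) := by
  have h : insF α d (Sum.inl e) = Sum.inl (α.1 e) := by simp [insF, h1, h2]
  rw [sg, h]
  rfl

private theorem sg_d : (ext f * (ins α d).1) (Sum.inl d) = Sum.inr 1 := by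
  have h : insF α d (Sum.inl d) = Sum.inr 0 := by simp [insF]
  rw [sg, h]
  rfl

private theorem sg_ad : (ext f * (ins α d).1) (Sum.inl (α.1 d)) = Sum.inr 4 := by
  have h3 : α.1 d ≠ d := α.2.2 d
  have h : insF α d (Sum.inl (α.1 d)) = Sum.inr 3 := by simp [insF, h3]
  rw [sg, h]
  rfl

private theorem sg_0 : (ext f * (ins α d).1) (Sum.inr 0) = Sum.inl ((f * α.1) (α.1 d)) := by
  have h : insF α d (Sum.inr 0) = Sum.inl d := by simp [insF]
  rw [sg, h, Equiv.Perm.mul_apply, α.2.1]
  rfl

private theorem sg_1 : (ext f * (ins α d).1) (Sum.inr 1) = Sum.inr 3 := by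
  have h : insF α d (Sum.inr 1) = Sum.inr 5 := by simp [insF]
  rw [sg, h]
  rfl

private theorem sg_2 : (ext f * (ins α d).1) (Sum.inr 2) = Sum.inr 5 := by
  have h : insF α d (Sum.inr 2) = Sum.inr 4 := by simp [insF]
  rw [sg, h]
  rfl

private theorem sg_3 : (ext f * (ins α d).1) (Sum.inr 3) = Sum.inl ((f * α.1) d) := by
  have h : insF α d (Sum.inr 3) = Sum.inl (α.1 d) := by simp [insF]
  rw [sg, h]
  rfl

private theorem sg_4 : (ext f * (ins α d).1) (Sum.inr 4) = Sum.inr 0 := by
  have h : insF α d (Sum.inr 4) = Sum.inr 2 := by simp [insF]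
  rw [sg, h]
  rfl

private theorem sg_5 : (ext f * (ins α d).1) (Sum.inr 5) = Sum.inr 2 := by
  have h : insF α d (Sum.inr 5) = Sum.inr 1 := by simp [insF]
  rw [sg, h]
  rfl

private theorem stp {E : Type} (τ : Equiv.Perm E) {x y : E} (h : τ x = y) : τ.SameCycle x y :=
  ⟨1, by rw [zpow_one, h]⟩

private theorem c_d : (ext f * (ins α d).1).SameCycle (Sum.inl d) (Sum.inl ((f * α.1) d)) :=
  (stp _ (sg_d f α d)).trans ((stp _ (sg_1 f α d)).trans (stp _ (sg_3 f α d)))

private theorem c_ad : (ext f * (ins α d).1).SameCycle (Sum.inl (α.1 d))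
    (Sum.inl ((f * α.1) (α.1 d))) :=
  (stp _ (sg_ad f α d)).trans ((stp _ (sg_4 f α d)).trans (stp _ (sg_0 f α d)))

private theorem c_one (e : D) : (ext f * (ins α d).1).SameCycle (Sum.inl e) (Sum.inl ((f * α.1) e)) := by
  by_cases h1 : e = d
  · rw [h1]
    exact c_d f α d
  · by_cases h2 : e = α.1 d
    · rw [h2]
      exact c_ad f α d
    · exact stp _ (sg_ne f α d h1 h2)

private theorem c_all [Finite D] {e e' : D} (h : (f * α.1).SameCycle e e') :
    (ext f * (ins α d).1).SameCycle (Sum.inl e) (Sum.inl e') := by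
  obtain ⟨n, hn⟩ := h.exists_nat_pow_eq
  rw [← hn]
  have key : ∀ n : ℕ, (ext f * (ins α d).1).SameCycle (Sum.inl e) (Sum.inl (((f * α.1) ^ n) e)) := by
    intro n
    induction n with
    | zero => exact Equiv.Perm.SameCycle.refl _ _
    | succ n ih =>
      rw [pow_succ', Equiv.Perm.mul_apply]
      exact ih.trans (c_one f α d _)
  exact key n

/-- the classes of the old permutation -/
private abbrev QQ : Type := Quotient (Equiv.Perm.SameCycle.setoid (f * α.1))

private def cl (e : D) : QQ f α := Quotient.mk (Equiv.Perm.SameCycle.setoid (f * α.1)) e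

private theorem cl_s (e : D) : cl f α ((f * α.1) e) = cl f α e :=
  Quotient.sound (s := Equiv.Perm.SameCycle.setoid (f * α.1)) (stp (f * α.1) rfl).symm

/-- the invariant function -/
private def hh : D ⊕ Fin 6 → Option (QQ f α)
  | .inl e => some (cl f α e)
  | .inr 0 => some (cl f α (α.1 d))
  | .inr 1 => some (cl f α d)
  | .inr 2 => none
  | .inr 3 => some (cl f α d)
  | .inr 4 => some (cl f α (α.1 d))
  | .inr 5 => none

private theorem hh_inv (z : D ⊕ Fin 6) : hh f α d ((ext f * (ins α d).1) z) = hh f α d z := by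
  rcases z with e | j
  · by_cases h1 : e = d
    · rw [h1, sg_d]
      rfl
    · by_cases h2 : e = α.1 d
      · rw [h2, sg_ad]
        rfl
      · rw [sg_ne f α d h1 h2]
        show some (cl f α ((f * α.1) e)) = some (cl f α e)
        rw [cl_s]
  · fin_cases j
    · show hh f α d ((ext f * (ins α d).1) (Sum.inr 0)) = some (cl f α (α.1 d))
      rw [sg_0]
      show some (cl f α ((f * α.1) (α.1 d))) = some (cl f α (α.1 d))
      rw [cl_s]
    · show hh f α d ((ext f * (ins α d).1) (Sum.inr 1)) = some (cl f α d)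
      rw [sg_1]
      rfl
    · show hh f α d ((ext f * (ins α d).1) (Sum.inr 2)) = none
      rw [sg_2]
      rfl
    · show hh f α d ((ext f * (ins α d).1) (Sum.inr 3)) = some (cl f α d)
      rw [sg_3]
      show some (cl f α ((f * α.1) d)) = some (cl f α d)
      rw [cl_s]
    · show hh f α d ((ext f * (ins α d).1) (Sum.inr 4)) = some (cl f α (α.1 d))
      rw [sg_4]
      rfl
    · show hh f α d ((ext f * (ins α d).1) (Sum.inr 5)) = none
      rw [sg_5]
      rfl

private theorem hh_same [Finite D] {z z' : D ⊕ Fin 6} (h : (ext f * (ins α d).1).SameCycle z z') :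
    hh f α d z = hh f α d z' := by
  obtain ⟨n, hn⟩ := h.exists_nat_pow_eq
  rw [← hn]
  have key : ∀ n : ℕ, hh f α d (((ext f * (ins α d).1) ^ n) z) = hh f α d z := by
    intro n
    induction n with
    | zero => rfl
    | succ n ih =>
      rw [pow_succ', Equiv.Perm.mul_apply, hh_inv, ih]
  exact (key n).symm

end

theorem cyc_ins {D : Type} [Finite D] (f : Equiv.Perm D) (α : Glu D) (d : D) :
    SST.T.cyc (ext f * (ins α d).1) = SST.T.cyc (f * α.1) + 1 := by
  let Q := Quotient (Equiv.Perm.SameCycle.setoid (ext f * (ins α d).1))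
  let mk : D ⊕ Fin 6 → Q := fun z => Quotient.mk (Equiv.Perm.SameCycle.setoid (ext f * (ins α d).1)) z
  have hmk : ∀ {z z' : D ⊕ Fin 6}, (ext f * (ins α d).1).SameCycle z z' → mk z = mk z' := fun h =>
    Quotient.sound (s := Equiv.Perm.SameCycle.setoid (ext f * (ins α d).1)) h
  let H : Q → Option (QQ f α) := Quotient.lift (hh f α d) (fun z z' h => hh_same f α d h)
  let G0 : QQ f α → Q := Quotient.lift (fun e => mk (Sum.inl e)) (fun e e' h => hmk (c_all f α d h))
  let G : Option (QQ f α) → Q := fun o => o.elim (mk (Sum.inr 2)) G0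
  have hGH : ∀ q, G (H q) = q := by
    intro q
    induction q using Quotient.inductionOn with
    | _ z =>
      show G (hh f α d z) = mk z
      rcases z with e | j
      · rfl
      · fin_cases j
        · show mk (Sum.inl (α.1 d)) = mk (Sum.inr 0)
          exact hmk ((stp _ (sg_ad f α d)).trans (stp _ (sg_4 f α d)))
        · show mk (Sum.inl d) = mk (Sum.inr 1)
          exact hmk (stp _ (sg_d f α d))
        · rfl
        · show mk (Sum.inl d) = mk (Sum.inr 3)
          exact hmk ((stp _ (sg_d f α d)).trans (stp _ (sg_1 f α d)))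
        · show mk (Sum.inl (α.1 d)) = mk (Sum.inr 4)
          exact hmk (stp _ (sg_ad f α d))
        · show mk (Sum.inr 2) = mk (Sum.inr 5)
          exact hmk (stp _ (sg_2 f α d))
  have hHG : ∀ o, H (G o) = o := by
    intro o
    rcases o with _ | q
    · rfl
    · induction q using Quotient.inductionOn with
      | _ e => rfl
  have e : Q ≃ Option (QQ f α) := ⟨H, G, hGH, hHG⟩
  have h1 : Nat.card Q = Nat.card (Option (QQ f α)) := Nat.card_congr e
  have h2 : Nat.card (Option (QQ f α)) = Nat.card (QQ f α) + 1 := Finite.card_option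
  show Nat.card Q = Nat.card (QQ f α) + 1
  rw [h1, h2]

end SYS.Num.Ins
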