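import Pool.Agent.SYS.BD.Mg

/-!
# SYS-IN: insertion of a digon with a vertex of degree two (definitions). DO NOT CHANGE.

A map is a gluing `α` of the set of sides `D` with the permutation `f` (next side of the same face).
`Pat f α x y`: the triangles `x, f x, f² x` and `y, f y, f² y` are glued along `f x ~ f² y` and
`f² x ~ f y`; then the vertex between `f x` and `f² x` has degree two. `ins α d` inserts two triangles
with the sides `0 1 2`, `3 4 5` in this way in the edge of `d`.
-/

namespace SYS.Num.Ins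

open SYS.A

/-- Two triangles with the sides `0 1 2` and `3 4 5`. -/
def s6 : Equiv.Perm (Fin 6) where
  toFun := ![1, 2, 0, 4, 5, 3]
  invFun := ![2, 0, 1, 5, 3, 4]
  left_inv := by decide
  right_inv := by decide

/-- Two more triangles. -/
def ext {D : Type} (f : Equiv.Perm D) : Equiv.Perm (D ⊕ Fin 6) := Equiv.sumCongr f s6

/-- The sides of the triangles. -/
def extT {D : Type} (T : Set D) : Set (D ⊕ Fin 6) := {z | ∀ e, z = Sum.inl e → e ∈ T}

/-- Connected. -/
def Tra {D : Type} (f : Equiv.Perm D) (α : Glu D) : Prop :=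
  ∀ S : Set D, S.Nonempty → (∀ d ∈ S, f d ∈ S) → (∀ d ∈ S, α.1 d ∈ S) → S = Set.univ

/-- Connected maps with `V` vertices. -/
def Mp {D : Type} (f : Equiv.Perm D) (V : ℕ) : Type :=
  {α : Glu D // Tra f α ∧ SST.T.cyc (f * α.1) = V}

/-- The two triangles of `x` and `y` form a digon with a vertex of degree two. -/
def Pat {D : Type} (f : Equiv.Perm D) (α : Glu D) (x y : D) : Prop :=
  α.1 (f x) = f (f y) ∧ α.1 (f (f x)) = f y

/-- `x`, `y` are sides of different triangles. -/
def Dif {D : Type} (f : Equiv.Perm D) (T : Set D) (x y : D) : Prop :=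
  x ∈ T ∧ y ∈ T ∧ y ≠ x ∧ y ≠ f x ∧ y ≠ f (f x)

/-- Number of digons with a vertex of degree two. -/
noncomputable def XX {D : Type} (f : Equiv.Perm D) (T : Set D) (α : Glu D) : ℕ :=
  Nat.card {z : D × D // Dif f T z.1 z.2 ∧ Pat f α z.1 z.2}

open Classical in
/-- The insertion on sides. -/
noncomputable def insF {D : Type} (α : Glu D) (d : D) : D ⊕ Fin 6 → D ⊕ Fin 6
  | .inl e => if e = d then .inr 0 else if e = α.1 d then .inr 3 else .inl (α.1 e)
  | .inr 0 => .inl d
  | .inr 1 => .inr 5
  | .inr 2 => .inr 4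
  | .inr 3 => .inl (α.1 d)
  | .inr 4 => .inr 2
  | .inr 5 => .inr 1

theorem insF_inv {D : Type} (α : Glu D) (d : D) : Function.Involutive (insF α d) := by
  rintro (e | j)
  · by_cases h1 : e = d
    · simp [insF, h1]
    · by_cases h2 : e = α.1 d
      · have h3 : α.1 d ≠ d := α.2.2 d
        simp [insF, h2, h3]
      · have h3 : α.1 e ≠ d := fun h => h2 (by rw [← h, α.2.1])
        have h4 : α.1 e ≠ α.1 d := fun h => h1 (α.1.injective h)
        simp [insF, h1, h2, h3, h4, α.2.1]
  · have h3 : α.1 d ≠ d := α.2.2 d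
    fin_cases j <;> simp [insF, h3]

/-- Insertion of a digon in the edge of `d`. -/
noncomputable def ins {D : Type} (α : Glu D) (d : D) : Glu (D ⊕ Fin 6) :=
  ⟨(insF_inv α d).toPerm, fun z => insF_inv α d z, by
    rintro (e | j)
    · show insF α d (Sum.inl e) ≠ Sum.inl e
      by_cases h1 : e = d
      · simp [insF, h1]
      · by_cases h2 : e = α.1 d
        · have h3 : α.1 d ≠ d := α.2.2 d
          simp [insF, h2, h3]
        · simpa [insF, h1, h2] using α.2.2 e
    · show insF α d (Sum.inr j) ≠ Sum.inr j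
      fin_cases j <;> simp [insF]⟩

theorem ins_apply {D : Type} (α : Glu D) (d : D) (z : D ⊕ Fin 6) : (ins α d).1 z = insF α d z := rfl

/-- Sides of the polygons `E` and of `F` triangles. -/
abbrev TD (E : Type) (F : ℕ) : Type := E ⊕ Fin F × Fin 3

/-- Next side. -/
def tf {E : Type} (φ : Equiv.Perm E) (F : ℕ) : Equiv.Perm (TD E F) :=
  Equiv.sumCongr φ (Equiv.prodCongr (Equiv.refl _) (finRotate 3))

/-- The sides of the triangles. -/
def tri (E : Type) (F : ℕ) : Set (TD E F) := Set.range Sum.inr

end SYS.Num.Ins
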