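import Pool.Agent.SYS.IN.Sum
import Pool.Agent.SYS.IN.Brg

/-!
# SYS-IN-Mono: the ratio `muG P (F - 2) g / muG P F g` is almost monotone (2.4)

The inequality of Cauchy and Schwarz `CS`, divided by the weights.
-/

namespace SYS.Num

open Ins in
private theorem mono_cof (P : Multiset ℕ) {F g V : ℕ} (hF : 0 < F) (h0 : 0 ∉ P)
    (h : 2 * V + 4 * g + 2 * Multiset.card P = 4 + F + P.sum) :
    ((3 : ℝ) ^ F * F.factorial) * muG P F g =
      (Nat.card (Mp (tf (SYS.A.rot (SYS.A.fam P)) F) V) : ℝ) := by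
  have h1 := con_mp P F V h0 (Or.inr hF)
  rw [muG_of h]
  unfold SYS.A.muP
  rw [Polynomial.coeff_C_mul, h1]
  have h2 : ((3 : ℝ) ^ F * F.factorial) ≠ 0 := by positivity
  push_cast
  field_simp

theorem mono_ratio (P : Multiset ℕ) {F : ℕ} (hF : 1 ≤ F) (g : ℕ) :
    (3 * (F : ℝ) + P.sum + 6) * muG P (F + 2) g ^ 2 ≤
      muG P (F + 4) g * ((3 * (F : ℝ) + P.sum) * muG P F g + 2 * muG P (F + 2) g) := by
  have n0 := muG_nonneg P F g
  have n2 := muG_nonneg P (F + 2) g
  have n4 := muG_nonneg P (F + 4) g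
  by_cases hz : muG P (F + 2) g = 0
  · rw [hz]
    have : (0 : ℝ) ≤ muG P (F + 4) g * ((3 * (F : ℝ) + P.sum) * muG P F g + 2 * 0) := by positivity
    simpa using this
  · obtain ⟨V₁, hV₁⟩ : ∃ V : ℕ, 2 * V + 4 * g + 2 * Multiset.card P = 4 + (F + 2) + P.sum := by
      by_contra hc
      push Not at hc
      exact hz (muG_not hc)
    have hne : (SYS.A.muP P (F + 2)).coeff V₁ ≠ 0 := by
      intro h1
      apply hz
      rw [muG_of hV₁, h1, Rat.cast_zero]
    have hpos : 0 < V₁ := by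
      refine SYS.A.conM_pos (P + Multiset.replicate (F + 2) 3) V₁ fun h1 => hne ?_
      unfold SYS.A.muP
      rw [Polynomial.coeff_C_mul, h1, mul_zero]
    have h0 : 0 ∉ P := by
      intro h1
      obtain ⟨P', hP'⟩ := Multiset.exists_cons_of_mem h1
      apply hne
      rw [hP', SYS.A.muP_zero, if_neg (fun h2 => by omega), Polynomial.coeff_zero]
    obtain ⟨V, rfl⟩ : ∃ V, V₁ = V + 1 := ⟨V₁ - 1, by omega⟩
    have c0 := mono_cof P (F := F) (g := g) (V := V) (by omega) h0 (by omega)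
    have c2 := mono_cof P (F := F + 2) (g := g) (V := V + 1) (by omega) h0 (by omega)
    have c4 := mono_cof P (F := F + 4) (g := g) (V := V + 2) (by omega) h0 (by omega)
    have hN : Nonempty (Ins.TD (SYS.A.Dt (SYS.A.fam P)) F) := ⟨Sum.inr (⟨0, by omega⟩, 0)⟩
    have hcs := Ins.CS (SYS.A.rot (SYS.A.fam P)) F V hN
    rw [Ins.card_TD, Ins.card_TD, ← c0, ← c2, ← c4] at hcs
    have f2 : ((F + 2).factorial : ℝ) = ((F : ℝ) + 2) * ((F : ℝ) + 1) * F.factorial := by
      rw [Nat.factorial_succ, Nat.factorial_succ]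
      push_cast
      ring
    have f4 : ((F + 4).factorial : ℝ) = ((F : ℝ) + 4) * ((F : ℝ) + 3) * (F + 2).factorial := by
      rw [Nat.factorial_succ, Nat.factorial_succ]
      push_cast
      ring
    rw [f4, f2] at hcs
    have hc : (0 : ℝ) < 3 ^ F * F.factorial := by positivity
    have hD : (0 : ℝ) < 9 * ((F : ℝ) + 4) * (F + 3) *
        (9 * (((F : ℝ) + 2) * ((F : ℝ) + 1)) * (3 ^ F * F.factorial)) ^ 2 := by positivity
    refine le_of_mul_le_mul_left ?_ hD
    have e1 : (3 : ℝ) ^ (F + 2) = 9 * 3 ^ F := by ring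
    have e2 : (3 : ℝ) ^ (F + 4) = 81 * 3 ^ F := by ring
    rw [e1, e2] at hcs
    simp only [Nat.cast_add, Nat.cast_mul, Nat.cast_ofNat] at hcs
    generalize (F.factorial : ℝ) = a at *
    generalize (3 : ℝ) ^ F = b at *
    generalize muG P F g = m0 at *
    generalize muG P (F + 2) g = m2 at *
    generalize muG P (F + 4) g = m4 at *
    generalize (F : ℝ) = x at *
    generalize (P.sum : ℝ) = y at *
    linarith [hcs]

end SYS.Num
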