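import Pool.Agent.SYS.IN.Defs

/-!
# SYS-IN-Tra: transport to another set of sides

`e : D ≃ D'` with `e (f d) = f' (e d)`. PROOF. `gl e α = e⁻¹ α e` (`Equiv.permCongr`). Everything is
transported; for `cyc` see the private lemmas `cyc_conj` (`SYS/A/BrA.lean`), `cg_cyc` (`SYS/A/Cgr.lean`); copy one of them.
`exists_e`: `i ≠ j` in `Fin (F + 2)`: there is `ρ : Fin (F + 2) ≃ Fin F ⊕ Fin 2` with `ρ i = inr 0`,
`ρ j = inr 1` (cardinalities: `{k // k ≠ i ∧ k ≠ j}` has `F` elements; or `Equiv.sumCongr` ∘ `finSumFinEquiv` composed with a permutation which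
moves `i, j` to the last two places). Then `(k, c) ↦ (k', c)` if `ρ k = inl k'`; `(i, c) ↦ inr (c - a)` (as
an element of `{0, 1, 2}`), `(j, c) ↦ inr (3 + (c - b))`, and `inl z ↦ inl (inl z)`. (`finRotate 3 c = c + 1`.)
-/

namespace SYS.Num.Ins

open SYS.A

/-- Transport of a gluing. -/
def gl {D D' : Type} (e : D ≃ D') (α : Glu D) : Glu D' :=
  ⟨e.permCongr α.1, fun z => by simp [α.2.1], fun z h => by
    have h1 : e (α.1 (e.symm z)) = z := h
    exact α.2.2 _ (e.injective (h1.trans (e.apply_symm_apply z).symm))⟩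

theorem gl_apply {D D' : Type} (e : D ≃ D') (α : Glu D) (z : D) : (gl e α).1 (e z) = e (α.1 z) := by
  simp [gl]

private theorem tra_symm {D D' : Type} (e : D ≃ D') (α : Glu D) : gl e.symm (gl e α) = α := by
  apply Subtype.ext
  ext z
  simp [gl]

private theorem tra_symm' {D D' : Type} (e : D ≃ D') (α : Glu D') : gl e (gl e.symm α) = α := by
  apply Subtype.ext
  ext z
  simp [gl]

theorem gl_bij {D D' : Type} (e : D ≃ D') : Function.Bijective (gl e) :=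
  Function.bijective_iff_has_inverse.2 ⟨gl e.symm, tra_symm e, tra_symm' e⟩

private theorem tra_one {D D' : Type} (e : D ≃ D') {f : Equiv.Perm D} {f' : Equiv.Perm D'}
    (he : ∀ d, e (f d) = f' (e d)) (α : Glu D) (h : Tra f α) : Tra f' (gl e α) := by
  intro S hS h1 h2
  have h3 : e ⁻¹' S = Set.univ := by
    refine h _ ?_ ?_ ?_
    · obtain ⟨y, hy⟩ := hS
      refine ⟨e.symm y, ?_⟩
      show e (e.symm y) ∈ S
      rw [Equiv.apply_symm_apply]
      exact hy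
    · intro d hd
      show e (f d) ∈ S
      rw [he]
      exact h1 _ hd
    · intro d hd
      show e (α.1 d) ∈ S
      rw [← gl_apply]
      exact h2 _ hd
  ext y
  refine ⟨fun _ => trivial, fun _ => ?_⟩
  have h4 : e.symm y ∈ e ⁻¹' S := by
    rw [h3]
    trivial
  have h5 : e (e.symm y) ∈ S := h4
  rwa [Equiv.apply_symm_apply] at h5

private theorem tra_inv {D D' : Type} (e : D ≃ D') {f : Equiv.Perm D} {f' : Equiv.Perm D'}
    (he : ∀ d, e (f d) = f' (e d)) (y : D') : e.symm (f' y) = f (e.symm y) := by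
  rw [Equiv.symm_apply_eq, he, Equiv.apply_symm_apply]

theorem gl_Tra {D D' : Type} (e : D ≃ D') {f : Equiv.Perm D} {f' : Equiv.Perm D'}
    (he : ∀ d, e (f d) = f' (e d)) (α : Glu D) : Tra f' (gl e α) ↔ Tra f α := by
  refine ⟨fun h => ?_, tra_one e he α⟩
  have h1 := tra_one e.symm (tra_inv e he) (gl e α) h
  rwa [tra_symm] at h1

private theorem tra_cyc {E D : Type} (e : E ≃ D) (σ : Equiv.Perm E) (τ : Equiv.Perm D)
    (h : ∀ z, τ (e z) = e (σ z)) : SST.T.cyc τ = SST.T.cyc σ := by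
  have hτ : τ = e.permCongrHom σ := by
    ext y
    obtain ⟨z, rfl⟩ := e.surjective y
    rw [h z]
    simp [Equiv.permCongrHom]
  have hz : ∀ (k : ℤ) (z : E), (τ ^ k) (e z) = e ((σ ^ k) z) := by
    intro k z
    rw [hτ, ← map_zpow]
    simp [Equiv.permCongrHom]
  unfold SST.T.cyc
  refine (Nat.card_congr (Quotient.congr e ?_)).symm
  intro a b
  constructor
  · rintro ⟨k, hk⟩
    exact ⟨k, by rw [hz, hk]⟩
  · rintro ⟨k, hk⟩
    rw [hz] at hk
    exact ⟨k, e.injective hk⟩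

theorem gl_cyc {D D' : Type} (e : D ≃ D') {f : Equiv.Perm D} {f' : Equiv.Perm D'}
    (he : ∀ d, e (f d) = f' (e d)) (α : Glu D) :
    SST.T.cyc (f' * (gl e α).1) = SST.T.cyc (f * α.1) := by
  refine tra_cyc e _ _ fun z => ?_
  rw [Equiv.Perm.mul_apply, Equiv.Perm.mul_apply, gl_apply, he]

theorem gl_Pat {D D' : Type} (e : D ≃ D') {f : Equiv.Perm D} {f' : Equiv.Perm D'}
    (he : ∀ d, e (f d) = f' (e d)) (α : Glu D) (x y : D) :
    Pat f' (gl e α) (e x) (e y) ↔ Pat f α x y := by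
  unfold Pat
  rw [← he, ← he, ← he, ← he, gl_apply, gl_apply, e.injective.eq_iff, e.injective.eq_iff]

theorem gl_XX {D D' : Type} (e : D ≃ D') {f : Equiv.Perm D} {f' : Equiv.Perm D'}
    (he : ∀ d, e (f d) = f' (e d)) {T : Set D} {T' : Set D'} (hT : ∀ d, d ∈ T ↔ e d ∈ T') (α : Glu D) :
    XX f' T' (gl e α) = XX f T α := by
  unfold XX
  refine (Nat.card_congr (Equiv.subtypeEquiv (Equiv.prodCongr e e) ?_)).symm
  rintro ⟨x, y⟩
  show (Dif f T x y ∧ Pat f α x y) ↔ (Dif f' T' (e x) (e y) ∧ Pat f' (gl e α) (e x) (e y))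
  rw [gl_Pat e he]
  have h1 : Dif f T x y ↔ Dif f' T' (e x) (e y) := by
    unfold Dif
    rw [hT, hT, ← he, ← he, Ne, Ne, Ne, Ne, Ne, Ne, e.injective.eq_iff, e.injective.eq_iff, e.injective.eq_iff]
  rw [h1]

theorem tr_sum {D D' : Type} (e : D ≃ D') {f : Equiv.Perm D} {f' : Equiv.Perm D'}
    (he : ∀ d, e (f d) = f' (e d)) (V : ℕ) (x y : D) (w : Glu D' → ℝ) :
    ∑ᶠ α : {α : Mp f V // Pat f α.1 x y}, w (gl e α.1.1) =
      ∑ᶠ α : {α : Mp f' V // Pat f' α.1 (e x) (e y)}, w α.1.1 := by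
  refine finsum_eq_of_bijective
    (fun α : {α : Mp f V // Pat f α.1 x y} =>
      (⟨⟨gl e α.1.1, (gl_Tra e he _).2 α.1.2.1, (gl_cyc e he _).trans α.1.2.2⟩, (gl_Pat e he _ _ _).2 α.2⟩ :
        {α : Mp f' V // Pat f' α.1 (e x) (e y)})) ⟨?_, ?_⟩ (fun α => rfl)
  · rintro ⟨⟨α, hα⟩, h⟩ ⟨⟨β, hβ⟩, h'⟩ hh
    have h1 : gl e α = gl e β := congrArg (fun z => z.1.1) hh
    have h2 := (gl_bij e).1 h1
    subst h2
    rfl
  · rintro ⟨⟨β, hβ⟩, h⟩
    obtain ⟨α, rfl⟩ := (gl_bij e).2 β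
    exact ⟨⟨⟨α, (gl_Tra e he _).1 hβ.1, (gl_cyc e he _).symm.trans hβ.2⟩, (gl_Pat e he _ _ _).1 h⟩, rfl⟩

private theorem tra_rho (F : ℕ) {i j : Fin (F + 2)} (hij : i ≠ j) :
    ∃ ρ : Fin (F + 2) ≃ Fin F ⊕ Fin 2, ρ i = Sum.inr 0 ∧ ρ j = Sum.inr 1 := by
  obtain ⟨i0, hi0⟩ : ∃ i0 : Fin (F + 2), i0 = finSumFinEquiv (Sum.inr 0) := ⟨_, rfl⟩
  obtain ⟨j0, hj0⟩ : ∃ j0 : Fin (F + 2), j0 = finSumFinEquiv (Sum.inr 1) := ⟨_, rfl⟩
  have h0 : i0 ≠ j0 := by
    rw [hi0, hj0]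
    intro h
    have h1 := finSumFinEquiv.injective h
    simp at h1
  have h1 : Equiv.swap i i0 j ≠ i0 := by
    intro h
    have h2 : Equiv.swap i i0 j = Equiv.swap i i0 i := by rw [h, Equiv.swap_apply_left]
    exact hij ((Equiv.swap i i0).injective h2).symm
  refine ⟨((Equiv.swap i i0).trans (Equiv.swap (Equiv.swap i i0 j) j0)).trans finSumFinEquiv.symm, ?_, ?_⟩
  · rw [Equiv.trans_apply, Equiv.trans_apply, Equiv.swap_apply_left, Equiv.swap_apply_of_ne_of_ne h1.symm h0, hi0,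
      Equiv.symm_apply_apply]
  · rw [Equiv.trans_apply, Equiv.trans_apply, Equiv.swap_apply_left, hj0, Equiv.symm_apply_apply]

private theorem tra_tau (a b : Fin 3) : ∃ τ : Fin 2 × Fin 3 ≃ Fin 6,
    (∀ k c, τ (k, finRotate 3 c) = s6 (τ (k, c))) ∧ τ (0, a) = 0 ∧ τ (1, b) = 3 := by
  have h3 : ∀ x : Fin 3, finRotate 3 x = x + 1 := fun x => finRotate_apply x
  fin_cases a <;> fin_cases b
  · exact ⟨⟨fun z => ![![0, 1, 2], ![3, 4, 5]] z.1 z.2, ![(0, 0), (0, 1), (0, 2), (1, 0), (1, 1), (1, 2)], by decide, by decide⟩,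
      by simp only [h3]; decide, by decide, by decide⟩
  · exact ⟨⟨fun z => ![![0, 1, 2], ![5, 3, 4]] z.1 z.2, ![(0, 0), (0, 1), (0, 2), (1, 1), (1, 2), (1, 0)], by decide, by decide⟩,
      by simp only [h3]; decide, by decide, by decide⟩
  · exact ⟨⟨fun z => ![![0, 1, 2], ![4, 5, 3]] z.1 z.2, ![(0, 0), (0, 1), (0, 2), (1, 2), (1, 0), (1, 1)], by decide, by decide⟩,
      by simp only [h3]; decide, by decide, by decide⟩
  · exact ⟨⟨fun z => ![![2, 0, 1], ![3, 4, 5]] z.1 z.2, ![(0, 1), (0, 2), (0, 0), (1, 0), (1, 1), (1, 2)], by decide, by decide⟩,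
      by simp only [h3]; decide, by decide, by decide⟩
  · exact ⟨⟨fun z => ![![2, 0, 1], ![5, 3, 4]] z.1 z.2, ![(0, 1), (0, 2), (0, 0), (1, 1), (1, 2), (1, 0)], by decide, by decide⟩,
      by simp only [h3]; decide, by decide, by decide⟩
  · exact ⟨⟨fun z => ![![2, 0, 1], ![4, 5, 3]] z.1 z.2, ![(0, 1), (0, 2), (0, 0), (1, 2), (1, 0), (1, 1)], by decide, by decide⟩,
      by simp only [h3]; decide, by decide, by decide⟩
  · exact ⟨⟨fun z => ![![1, 2, 0], ![3, 4, 5]] z.1 z.2, ![(0, 2), (0, 0), (0, 1), (1, 0), (1, 1), (1, 2)], by decide, by decide⟩,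
      by simp only [h3]; decide, by decide, by decide⟩
  · exact ⟨⟨fun z => ![![1, 2, 0], ![5, 3, 4]] z.1 z.2, ![(0, 2), (0, 0), (0, 1), (1, 1), (1, 2), (1, 0)], by decide, by decide⟩,
      by simp only [h3]; decide, by decide, by decide⟩
  · exact ⟨⟨fun z => ![![1, 2, 0], ![4, 5, 3]] z.1 z.2, ![(0, 2), (0, 0), (0, 1), (1, 2), (1, 0), (1, 1)], by decide, by decide⟩,
      by simp only [h3]; decide, by decide, by decide⟩

theorem exists_e {E : Type} (φ : Equiv.Perm E) (F : ℕ) {i j : Fin (F + 2)} (hij : i ≠ j)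
    (a b : Fin 3) : ∃ e : TD E (F + 2) ≃ TD E F ⊕ Fin 6,
      (∀ z, e (tf φ (F + 2) z) = ext (tf φ F) (e z)) ∧
      (∀ z, z ∈ tri E (F + 2) ↔ e z ∈ extT (tri E F)) ∧
      e (Sum.inr (i, a)) = Sum.inr 0 ∧ e (Sum.inr (j, b)) = Sum.inr 3 := by
  obtain ⟨ρ, h1, h2⟩ := tra_rho F hij
  obtain ⟨τ, h3, h4, h5⟩ := tra_tau a b
  let e : TD E (F + 2) ≃ TD E F ⊕ Fin 6 :=
    (Equiv.sumCongr (Equiv.refl E) ((Equiv.prodCongr ρ (Equiv.refl (Fin 3))).trans (Equiv.sumProdDistrib _ _ _))).trans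
      ((Equiv.sumAssoc _ _ _).symm.trans (Equiv.sumCongr (Equiv.refl _) τ))
  have e1 : ∀ x : E, e (Sum.inl x) = Sum.inl (Sum.inl x) := fun x => rfl
  have e2 : ∀ k c k', ρ k = Sum.inl k' → e (Sum.inr (k, c)) = Sum.inl (Sum.inr (k', c)) := by
    intro k c k' h
    show (Equiv.sumCongr (Equiv.refl _) τ) ((Equiv.sumAssoc _ _ _).symm (Sum.inr (Equiv.sumProdDistrib _ _ _ (ρ k, c)))) = _
    rw [h]
    rfl
  have e3 : ∀ k c k', ρ k = Sum.inr k' → e (Sum.inr (k, c)) = Sum.inr (τ (k', c)) := by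
    intro k c k' h
    show (Equiv.sumCongr (Equiv.refl _) τ) ((Equiv.sumAssoc _ _ _).symm (Sum.inr (Equiv.sumProdDistrib _ _ _ (ρ k, c)))) = _
    rw [h]
    rfl
  refine ⟨e, ?_, ?_, ?_, ?_⟩
  · rintro (x | ⟨k, c⟩)
    · rfl
    · show e (Sum.inr (k, finRotate 3 c)) = _
      rcases hk : ρ k with k' | k'
      · rw [e2 k _ k' hk, e2 k _ k' hk]
        rfl
      · rw [e3 k _ k' hk, e3 k _ k' hk, h3]
        rfl
  · rintro (x | ⟨k, c⟩)
    · rw [e1]
      constructor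
      · rintro ⟨w, hw⟩
        exact absurd hw (by simp)
      · intro h
        obtain ⟨w, hw⟩ := h _ rfl
        exact absurd hw (by simp)
    · refine ⟨fun _ => ?_, fun _ => ⟨(k, c), rfl⟩⟩
      rcases hk : ρ k with k' | k'
      · rw [e2 k _ k' hk]
        intro w hw
        rw [← Sum.inl.inj hw]
        exact ⟨(k', c), rfl⟩
      · rw [e3 k _ k' hk]
        intro w hw
        exact absurd hw (by simp)
  · rw [e3 i a 0 h1, h4]
  · rw [e3 j b 1 h2, h5]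

end SYS.Num.Ins
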