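import Pool.Agent.SYS.IN.Bij
import Pool.Agent.SYS.IN.Cnt
import Pool.Agent.SYS.IN.Tra

/-!
# SYS-IN-Sum: first and second moment of the number of patterns

Double counting of the pairs (map, pattern); every pattern is an insertion. Then Cauchy-Schwarz.
-/

namespace SYS.Num.Ins

open SYS.A

instance (D : Type) [Finite D] (f : Equiv.Perm D) (V : ℕ) : Finite (Mp f V) := by
  unfold Mp
  infer_instance

private theorem sum_rot : ∀ a b : Fin 3, b = a ∨ b = finRotate 3 a ∨ b = finRotate 3 (finRotate 3 a) := by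
  decide

private theorem sum_tf {E : Type} (φ : Equiv.Perm E) (F : ℕ) (i : Fin F) (a : Fin 3) :
    tf φ F (Sum.inr (i, a)) = Sum.inr (i, finRotate 3 a) := rfl

theorem dif_iff {E : Type} (φ : Equiv.Perm E) (F : ℕ) (x y : TD E F) :
    Dif (tf φ F) (tri E F) x y ↔
      ∃ (i j : Fin F) (a b : Fin 3), i ≠ j ∧ x = Sum.inr (i, a) ∧ y = Sum.inr (j, b) := by
  constructor
  · rintro ⟨⟨⟨i, a⟩, rfl⟩, ⟨⟨j, b⟩, rfl⟩, h1, h2, h3⟩
    refine ⟨i, j, a, b, ?_, rfl, rfl⟩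
    rintro rfl
    rw [sum_tf, sum_tf] at h3
    rw [sum_tf] at h2
    rcases sum_rot a b with rfl | rfl | rfl
    · exact h1 rfl
    · exact h2 rfl
    · exact h3 rfl
  · rintro ⟨i, j, a, b, hij, rfl, rfl⟩
    have hne : ∀ c : Fin 3, (Sum.inr (j, b) : TD E F) ≠ Sum.inr (i, c) := by
      intro c hc
      exact hij (congrArg Prod.fst (Sum.inr.inj hc)).symm
    refine ⟨⟨(i, a), rfl⟩, ⟨(j, b), rfl⟩, hne _, ?_, ?_⟩
    · rw [sum_tf]
      exact hne _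
    · rw [sum_tf, sum_tf]
      exact hne _

theorem card_dif {E : Type} (φ : Equiv.Perm E) (F : ℕ) :
    Nat.card {z : TD E (F + 2) × TD E (F + 2) // Dif (tf φ (F + 2)) (tri E (F + 2)) z.1 z.2} =
      9 * (F + 2) * (F + 1) := by
  have e : ({p : Fin (F + 2) × Fin (F + 2) // p.1 ≠ p.2} × (Fin 3 × Fin 3)) ≃
      {z : TD E (F + 2) × TD E (F + 2) // Dif (tf φ (F + 2)) (tri E (F + 2)) z.1 z.2} := by
    refine Equiv.ofBijective (fun p => ⟨(Sum.inr (p.1.1.1, p.2.1), Sum.inr (p.1.1.2, p.2.2)),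
      (dif_iff φ (F + 2) _ _).mpr ⟨p.1.1.1, p.1.1.2, p.2.1, p.2.2, p.1.2, rfl, rfl⟩⟩) ⟨?_, ?_⟩
    · rintro ⟨⟨⟨i, j⟩, h⟩, ⟨a, b⟩⟩ ⟨⟨⟨i', j'⟩, h'⟩, ⟨a', b'⟩⟩ he
      have h1 := congrArg Subtype.val he
      have h2 := Sum.inr.inj (congrArg Prod.fst h1)
      have h3 := Sum.inr.inj (congrArg Prod.snd h1)
      have h4 : i = i' := congrArg Prod.fst h2
      have h5 : a = a' := congrArg Prod.snd h2
      have h6 : j = j' := congrArg Prod.fst h3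
      have h7 : b = b' := congrArg Prod.snd h3
      subst h4 h5 h6 h7
      rfl
    · rintro ⟨⟨x, y⟩, hz⟩
      obtain ⟨i, j, a, b, hij, hx, hy⟩ := (dif_iff φ (F + 2) _ _).mp hz
      have hx' : x = Sum.inr (i, a) := hx
      have hy' : y = Sum.inr (j, b) := hy
      subst hx' hy'
      exact ⟨(⟨(i, j), hij⟩, (a, b)), rfl⟩
  rw [← Nat.card_congr e, Nat.card_prod, Nat.card_prod, Nat.card_eq_fintype_card, Nat.card_eq_fintype_card,
    Fintype.card_fin]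
  have h1 : Fintype.card {p : Fin (F + 2) × Fin (F + 2) // p.1 ≠ p.2} = (F + 2) * (F + 1) := by
    have h2 : Fintype.card {p : Fin (F + 2) × Fin (F + 2) // p.1 ≠ p.2} =
        (Finset.univ : Finset (Fin (F + 2))).offDiag.card := by
      rw [Fintype.card_subtype]
      congr 1
      ext p
      simp
    rw [h2, Finset.offDiag_card, Finset.card_univ, Fintype.card_fin]
    have h3 : (F + 2) * (F + 2) = (F + 2) * (F + 1) + (F + 2) := by ring
    omega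
  rw [h1]
  ring

private theorem sum_one (X : Type) [Finite X] : ∑ᶠ _ : X, (1 : ℝ) = Nat.card X := by
  classical
  haveI := Fintype.ofFinite X
  rw [finsum_eq_sum_of_fintype, Finset.sum_const, Nat.card_eq_fintype_card, Finset.card_univ, nsmul_eq_mul,
    mul_one]

private theorem sum_tr {E : Type} [Finite E] (φ : Equiv.Perm E) (F V : ℕ) (h : Nonempty (TD E F))
    {x y : TD E (F + 2)} (hxy : Dif (tf φ (F + 2)) (tri E (F + 2)) x y) :
    ∃ e : TD E (F + 2) ≃ TD E F ⊕ Fin 6,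
      (∀ z, e (tf φ (F + 2) z) = ext (tf φ F) (e z)) ∧
      (∀ z, z ∈ tri E (F + 2) ↔ e z ∈ extT (tri E F)) ∧
      ∀ w : Glu (TD E F ⊕ Fin 6) → ℝ,
        ∑ᶠ α : {α : Mp (tf φ (F + 2)) (V + 1) // Pat (tf φ (F + 2)) α.1 x y}, w (gl e α.1.1) =
          ∑ᶠ z : Mp (tf φ F) V × TD E F, w (ins z.1.1 z.2) := by
  obtain ⟨i, j, a, b, hij, rfl, rfl⟩ := (dif_iff φ (F + 2) _ _).mp hxy
  obtain ⟨e, he, hT, hx, hy⟩ := exists_e φ F hij a b
  refine ⟨e, he, hT, fun w => ?_⟩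
  rw [tr_sum e he (V + 1) _ _ w, hx, hy]
  exact ins_sum (tf φ F) V w

theorem pat_sum {E : Type} [Finite E] (φ : Equiv.Perm E) (F V : ℕ) (h : Nonempty (TD E F))
    {x y : TD E (F + 2)} (hxy : Dif (tf φ (F + 2)) (tri E (F + 2)) x y) :
    ∑ᶠ α : {α : Mp (tf φ (F + 2)) (V + 1) // Pat (tf φ (F + 2)) α.1 x y},
        (XX (tf φ (F + 2)) (tri E (F + 2)) α.1.1 : ℝ) =
      ∑ᶠ z : Mp (tf φ F) V × TD E F,
        (XX (ext (tf φ F)) (extT (tri E F)) (ins z.1.1 z.2) : ℝ) := by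
  obtain ⟨e, he, hT, hw⟩ := sum_tr φ F V h hxy
  rw [← hw (fun β => (XX (ext (tf φ F)) (extT (tri E F)) β : ℝ))]
  refine finsum_congr fun α => ?_
  rw [gl_XX e he hT]

theorem pat_card {E : Type} [Finite E] (φ : Equiv.Perm E) (F V : ℕ) (h : Nonempty (TD E F))
    {x y : TD E (F + 2)} (hxy : Dif (tf φ (F + 2)) (tri E (F + 2)) x y) :
    Nat.card {α : Mp (tf φ (F + 2)) (V + 1) // Pat (tf φ (F + 2)) α.1 x y} =
      Nat.card (Mp (tf φ F) V) * Nat.card (TD E F) := by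
  obtain ⟨e, he, hT, hw⟩ := sum_tr φ F V h hxy
  have h1 := hw (fun _ => 1)
  rw [sum_one, sum_one, Nat.card_prod] at h1
  exact_mod_cast h1

private theorem sum_dc {A B : Type} [Finite A] [Finite B] (P : B → Prop) (R : A → B → Prop) (w : A → ℝ) :
    ∑ᶠ α : A, (Nat.card {z : B // P z ∧ R α z} : ℝ) * w α =
      ∑ᶠ z : {z : B // P z}, ∑ᶠ α : {α : A // R α z.1}, w α.1 := by
  classical
  haveI := Fintype.ofFinite A
  haveI := Fintype.ofFinite B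
  have e1 : ∀ α : A, (Nat.card {z : B // P z ∧ R α z} : ℝ) * w α =
      ∑ z : B, if P z ∧ R α z then w α else 0 := by
    intro α
    rw [Nat.card_eq_fintype_card, Fintype.card_subtype, ← Finset.sum_filter, Finset.sum_const, nsmul_eq_mul]
  have e2 : ∀ z : B, (∑ᶠ α : {α : A // R α z}, w α.1) = ∑ α : A, if R α z then w α else 0 := by
    intro z
    rw [finsum_eq_sum_of_fintype, ← Finset.sum_filter]
    exact (Finset.sum_subtype (Finset.univ.filter (fun α => R α z)) (p := fun α => R α z)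
      (fun α => by simp) w).symm
  rw [finsum_eq_sum_of_fintype, finsum_eq_sum_of_fintype, Finset.sum_congr rfl fun α _ => e1 α,
    Finset.sum_comm]
  have e3 : ∑ z : {z : B // P z}, (∑ᶠ α : {α : A // R α z.1}, w α.1) =
      ∑ z ∈ Finset.univ.filter (fun z => P z), ∑ᶠ α : {α : A // R α z}, w α.1 :=
    (Finset.sum_subtype (Finset.univ.filter (fun z => P z)) (p := fun z => P z)
      (fun z => by simp) (fun z => ∑ᶠ α : {α : A // R α z}, w α.1)).symm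
  rw [e3, Finset.sum_filter]
  refine Finset.sum_congr rfl fun z _ => ?_
  by_cases hz : P z
  · rw [if_pos hz, e2]
    refine Finset.sum_congr rfl fun α _ => ?_
    simp [hz]
  · rw [if_neg hz]
    refine Finset.sum_eq_zero fun α _ => ?_
    simp [hz]

private theorem sum_const' {X : Type} [Finite X] (c : ℝ) : ∑ᶠ _ : X, c = Nat.card X * c := by
  haveI := Fintype.ofFinite X
  rw [finsum_eq_sum_of_fintype, Finset.sum_const, Nat.card_eq_fintype_card, Finset.card_univ, nsmul_eq_mul]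

theorem S1 {E : Type} [Finite E] (φ : Equiv.Perm E) (F V : ℕ) (h : Nonempty (TD E F)) :
    ∑ᶠ α : Mp (tf φ (F + 2)) (V + 1), (XX (tf φ (F + 2)) (tri E (F + 2)) α.1 : ℝ) =
      9 * ((F : ℝ) + 2) * (F + 1) * Nat.card (TD E F) * Nat.card (Mp (tf φ F) V) := by
  have h1 := sum_dc (A := Mp (tf φ (F + 2)) (V + 1)) (B := TD E (F + 2) × TD E (F + 2))
    (fun z => Dif (tf φ (F + 2)) (tri E (F + 2)) z.1 z.2)
    (fun α z => Pat (tf φ (F + 2)) α.1 z.1 z.2) (fun _ => 1)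
  have h2 : ∀ z : {z : TD E (F + 2) × TD E (F + 2) // Dif (tf φ (F + 2)) (tri E (F + 2)) z.1 z.2},
      ∑ᶠ _ : {α : Mp (tf φ (F + 2)) (V + 1) // Pat (tf φ (F + 2)) α.1 z.1.1 z.1.2}, (1 : ℝ) =
        Nat.card (Mp (tf φ F) V) * Nat.card (TD E F) := by
    intro z
    rw [sum_one, pat_card φ F V h z.2]
    push_cast
    rfl
  rw [finsum_congr h2, sum_const', card_dif] at h1
  have h3 : ∑ᶠ α : Mp (tf φ (F + 2)) (V + 1), (XX (tf φ (F + 2)) (tri E (F + 2)) α.1 : ℝ) =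
      ∑ᶠ α : Mp (tf φ (F + 2)) (V + 1), (Nat.card {z : TD E (F + 2) × TD E (F + 2) //
        Dif (tf φ (F + 2)) (tri E (F + 2)) z.1 z.2 ∧ Pat (tf φ (F + 2)) α.1 z.1 z.2} : ℝ) * 1 :=
    finsum_congr fun α => by rw [mul_one]; rfl
  rw [h3, h1]
  push_cast
  ring

theorem S2 {E : Type} [Finite E] (φ : Equiv.Perm E) (F V : ℕ) (h : Nonempty (TD E F)) :
    ∑ᶠ α : Mp (tf φ (F + 2)) (V + 1), (XX (tf φ (F + 2)) (tri E (F + 2)) α.1 : ℝ) ^ 2 ≤
      9 * ((F : ℝ) + 2) * (F + 1) * Nat.card (TD E F) *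
        ((∑ᶠ α : Mp (tf φ F) V, (XX (tf φ F) (tri E F) α.1 : ℝ)) + 2 * Nat.card (Mp (tf φ F) V)) := by
  classical
  have h1 := sum_dc (A := Mp (tf φ (F + 2)) (V + 1)) (B := TD E (F + 2) × TD E (F + 2))
    (fun z => Dif (tf φ (F + 2)) (tri E (F + 2)) z.1 z.2)
    (fun α z => Pat (tf φ (F + 2)) α.1 z.1 z.2) (fun α => (XX (tf φ (F + 2)) (tri E (F + 2)) α.1 : ℝ))
  have h3 : ∑ᶠ α : Mp (tf φ (F + 2)) (V + 1), (XX (tf φ (F + 2)) (tri E (F + 2)) α.1 : ℝ) ^ 2 =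
      ∑ᶠ α : Mp (tf φ (F + 2)) (V + 1), (Nat.card {z : TD E (F + 2) × TD E (F + 2) //
        Dif (tf φ (F + 2)) (tri E (F + 2)) z.1 z.2 ∧ Pat (tf φ (F + 2)) α.1 z.1 z.2} : ℝ) *
          (XX (tf φ (F + 2)) (tri E (F + 2)) α.1 : ℝ) :=
    finsum_congr fun α => by rw [pow_two]; rfl
  obtain ⟨K, hK⟩ : ∃ K : ℝ, K = Nat.card (TD E F) *
      ((∑ᶠ α : Mp (tf φ F) V, (XX (tf φ F) (tri E F) α.1 : ℝ)) + 2 * Nat.card (Mp (tf φ F) V)) := ⟨_, rfl⟩
  have h2 : ∀ z : {z : TD E (F + 2) × TD E (F + 2) // Dif (tf φ (F + 2)) (tri E (F + 2)) z.1 z.2},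
      ∑ᶠ α : {α : Mp (tf φ (F + 2)) (V + 1) // Pat (tf φ (F + 2)) α.1 z.1.1 z.1.2},
        (XX (tf φ (F + 2)) (tri E (F + 2)) α.1.1 : ℝ) ≤ K := by
    intro z
    rw [pat_sum φ F V h z.2, hK]
    haveI := Fintype.ofFinite (Mp (tf φ F) V)
    haveI := Fintype.ofFinite (TD E F)
    rw [finsum_eq_sum_of_fintype, finsum_eq_sum_of_fintype, Fintype.sum_prod_type,
      Nat.card_eq_fintype_card, Nat.card_eq_fintype_card]
    have h4 : ∀ α : Mp (tf φ F) V, ∑ d : TD E F,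
        (XX (ext (tf φ F)) (extT (tri E F)) (ins α.1 d) : ℝ) ≤
          (Fintype.card (TD E F) : ℝ) * ((XX (tf φ F) (tri E F) α.1 : ℝ) + 2) := by
      intro α
      calc _ ≤ ∑ _d : TD E F, ((XX (tf φ F) (tri E F) α.1 : ℝ) + 2) := by
            refine Finset.sum_le_sum fun d _ => ?_
            have := XX_ins (tf φ F) (tri E F) α.1 d
            exact_mod_cast this
        _ = _ := by rw [Finset.sum_const, Finset.card_univ, nsmul_eq_mul]
    refine (Finset.sum_le_sum fun α _ => h4 α).trans (le_of_eq ?_)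
    rw [← Finset.mul_sum, Finset.sum_add_distrib, Finset.sum_const, Finset.card_univ, nsmul_eq_mul]
    ring
  rw [h3, h1]
  haveI : Finite {z : TD E (F + 2) × TD E (F + 2) // Dif (tf φ (F + 2)) (tri E (F + 2)) z.1 z.2} :=
    Subtype.finite
  haveI := Fintype.ofFinite {z : TD E (F + 2) × TD E (F + 2) // Dif (tf φ (F + 2)) (tri E (F + 2)) z.1 z.2}
  have h5 : ∑ᶠ z : {z : TD E (F + 2) × TD E (F + 2) // Dif (tf φ (F + 2)) (tri E (F + 2)) z.1 z.2},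
      ∑ᶠ α : {α : Mp (tf φ (F + 2)) (V + 1) // Pat (tf φ (F + 2)) α.1 z.1.1 z.1.2},
        (XX (tf φ (F + 2)) (tri E (F + 2)) α.1.1 : ℝ) ≤
      ∑ᶠ _ : {z : TD E (F + 2) × TD E (F + 2) // Dif (tf φ (F + 2)) (tri E (F + 2)) z.1 z.2}, K := by
    rw [finsum_eq_sum_of_fintype, finsum_eq_sum_of_fintype]
    exact Finset.sum_le_sum fun z _ => h2 z
  refine h5.trans (le_of_eq ?_)
  rw [sum_const', card_dif, hK]
  push_cast
  ring

/-- Cauchy–Schwarz. -/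
theorem CS {E : Type} [Finite E] (φ : Equiv.Perm E) (F V : ℕ) (h : Nonempty (TD E F)) :
    9 * ((F : ℝ) + 4) * (F + 3) * Nat.card (TD E (F + 2)) *
        (Nat.card (Mp (tf φ (F + 2)) (V + 1)) : ℝ) ^ 2 ≤
      (Nat.card (Mp (tf φ (F + 4)) (V + 2)) : ℝ) *
        (9 * ((F : ℝ) + 2) * (F + 1) * Nat.card (TD E F) * Nat.card (Mp (tf φ F) V) +
          2 * Nat.card (Mp (tf φ (F + 2)) (V + 1))) := by
  have h' : Nonempty (TD E (F + 2)) := ⟨Sum.inr (0, 0)⟩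
  have a1 : ∑ᶠ α : Mp (tf φ (F + 4)) (V + 2), (XX (tf φ (F + 4)) (tri E (F + 4)) α.1 : ℝ) =
      9 * (((F + 2 : ℕ) : ℝ) + 2) * (((F + 2 : ℕ) : ℝ) + 1) * Nat.card (TD E (F + 2)) *
        Nat.card (Mp (tf φ (F + 2)) (V + 1)) := S1 φ (F + 2) (V + 1) h'
  have a2 : ∑ᶠ α : Mp (tf φ (F + 4)) (V + 2), (XX (tf φ (F + 4)) (tri E (F + 4)) α.1 : ℝ) ^ 2 ≤
      9 * (((F + 2 : ℕ) : ℝ) + 2) * (((F + 2 : ℕ) : ℝ) + 1) * Nat.card (TD E (F + 2)) *
        ((∑ᶠ α : Mp (tf φ (F + 2)) (V + 1), (XX (tf φ (F + 2)) (tri E (F + 2)) α.1 : ℝ)) +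
          2 * Nat.card (Mp (tf φ (F + 2)) (V + 1))) := S2 φ (F + 2) (V + 1) h'
  rw [S1 φ F V h] at a2
  haveI := Fintype.ofFinite (Mp (tf φ (F + 4)) (V + 2))
  have a3 : (∑ᶠ α : Mp (tf φ (F + 4)) (V + 2), (XX (tf φ (F + 4)) (tri E (F + 4)) α.1 : ℝ)) ^ 2 ≤
      (Nat.card (Mp (tf φ (F + 4)) (V + 2)) : ℝ) *
        ∑ᶠ α : Mp (tf φ (F + 4)) (V + 2), (XX (tf φ (F + 4)) (tri E (F + 4)) α.1 : ℝ) ^ 2 := by
    rw [finsum_eq_sum_of_fintype, finsum_eq_sum_of_fintype, Nat.card_eq_fintype_card, ← Finset.card_univ]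
    exact sq_sum_le_card_mul_sum_sq
  rw [a1] at a3
  have hN : (0 : ℝ) < Nat.card (TD E (F + 2)) := by
    exact_mod_cast Nat.card_pos
  have hF : (0 : ℝ) ≤ F := Nat.cast_nonneg F
  have a4 := a3.trans (mul_le_mul_of_nonneg_left a2 (Nat.cast_nonneg _))
  push_cast at a4
  obtain ⟨c, hc⟩ : ∃ c : ℝ, c = 9 * ((F : ℝ) + 4) * (F + 3) * Nat.card (TD E (F + 2)) := ⟨_, rfl⟩
  have hc0 : 0 < c := by rw [hc]; positivity
  have h24 : (F : ℝ) + 2 + 2 = F + 4 := by ring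
  have h23 : (F : ℝ) + 2 + 1 = F + 3 := by ring
  rw [h24, h23, ← hc] at a4
  rw [← hc]
  have a5 : c * (c * (Nat.card (Mp (tf φ (F + 2)) (V + 1)) : ℝ) ^ 2) ≤
      c * ((Nat.card (Mp (tf φ (F + 4)) (V + 2)) : ℝ) *
        (9 * ((F : ℝ) + 2) * (F + 1) * Nat.card (TD E F) * Nat.card (Mp (tf φ F) V) +
          2 * Nat.card (Mp (tf φ (F + 2)) (V + 1)))) := by
    refine le_trans (le_of_eq ?_) (a4.trans (le_of_eq ?_))
    · ring
    · ring
  exact le_of_mul_le_mul_left a5 hc0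

end SYS.Num.Ins
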